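import Mathlib
import Pool.Agent.T2H45.OT.AllS

set_option autoImplicit false

namespace Pool.Agent.Results.MP_79499b_co.OrderTuples

/-- Some finite group `G` (not assumed abelian) of order `(n ^ m - 1) / (n - 1)` contains a
difference set `D` with the Singer parameters:
`k = (n ^ (m - 1) - 1) / (n - 1)`, `lambda = (n ^ (m - 2) - 1) / (n - 1)`. -/
def HasSingerDifferenceSet (n m : ℕ) : Prop :=
  ∃ (G : Type) (_ : Group G) (_ : Fintype G) (_ : DecidableEq G) (D : Finset G),
    Fintype.card G * (n - 1) = n ^ m - 1 ∧ D.card * (n - 1) = n ^ (m - 1) - 1 ∧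
    ∀ g : G, g ≠ 1 →
      ((D ×ˢ D).filter (fun p : G × G => p.1 * p.2⁻¹ = g)).card * (n - 1) = n ^ (m - 2) - 1

/-- `n ≥ 2` is such that, for some odd `m ≥ 3` whose least prime factor is at most `K`, some finite
group contains a difference set with the Singer parameters of `(n, m)`. -/
def IsOrder (K n : ℕ) : Prop :=
  2 ≤ n ∧ ∃ m : ℕ, Odd m ∧ 3 ≤ m ∧ m.minFac ≤ K ∧ HasSingerDifferenceSet n m

/-- Tuples of orders in short intervals. Let `a_i n + b_i` (`i < r`) be linear forms with `a_i ≥ 1`,
no two of which are proportional, and let `K` be given.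

(1) For every `ε > 0` there is `C` such that for all `x ≥ 0` and `H ≥ 3` the interval `(x, x + H]`
contains at most `C H (log H) ^ (ε - r)` integers `n` for which all the numbers `a_i n + b_i` are
orders of difference sets with Singer parameters (`m` odd with a prime factor at most `K`).

(2) If `r ≥ 2`, then the sum of `1 / n` over the integers `n` for which all `a_i n + b_i` are such
orders converges.

(By Singer's theorem all prime powers are orders, so (1) contains the upper bounds for prime tuples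
in short intervals which Brun's sieve gives, up to the factor `(log H) ^ ε`, and the exponent `r` is
conjecturally best possible.) -/
theorem result (K r : ℕ) (a b : Fin r → ℕ) (ha : ∀ i, 0 < a i)
    (hab : ∀ i j, i ≠ j → a i * b j ≠ a j * b i) :
    (∀ ε : ℝ, 0 < ε → ∃ C : ℝ, 0 < C ∧ ∀ x H : ℕ, 3 ≤ H →
      ({n : ℕ | x < n ∧ n ≤ x + H ∧ ∀ i, IsOrder K (a i * n + b i)}.ncard : ℝ) ≤
        C * H * (Real.log H) ^ (ε - r)) ∧
    (2 ≤ r → Summable
      ({n : ℕ | ∀ i, IsOrder K (a i * n + b i)}.indicator fun n : ℕ => 1 / (n : ℝ))) := by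
  have key : ∀ ε : ℝ, 0 < ε → ∃ C : ℝ, 0 < C ∧ ∀ x H : ℕ, 3 ≤ H →
      ({n : ℕ | x < n ∧ n ≤ x + H ∧ ∀ i, IsOrder K (a i * n + b i)}.ncard : ℝ) ≤
        C * H * (Real.log H) ^ (ε - r) := by
    intro ε hε
    obtain ⟨C, hC, h⟩ := Pool.Agent.T2H45.OT.singer_all K a b ha hab ε hε
    exact ⟨C, hC, fun x H hH => h x H hH⟩
  exact ⟨key, fun hr => Pool.Agent.T2H45.OT.brun_all hr _ (key (1 / 2) (by norm_num))⟩

end Pool.Agent.Results.MP_79499b_co.OrderTuples
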