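import Mathlib
import Pool.Agent.T2H18.PO.Singer

set_option autoImplicit false

namespace Pool.Agent.Results.MP_79499b_co.PolynomialOrders

open Filter Topology Polynomial

/-- Some finite group `G` (not assumed abelian) of order `(n ^ m - 1) / (n - 1)` contains a
difference set `D` with the Singer parameters:
`k = (n ^ (m - 1) - 1) / (n - 1)`, `lambda = (n ^ (m - 2) - 1) / (n - 1)`. -/
def HasSingerDifferenceSet (n m : ℕ) : Prop :=
  ∃ (G : Type) (_ : Group G) (_ : Fintype G) (_ : DecidableEq G) (D : Finset G),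
    Fintype.card G * (n - 1) = n ^ m - 1 ∧ D.card * (n - 1) = n ^ (m - 1) - 1 ∧
    ∀ g : G, g ≠ 1 →
      ((D ×ˢ D).filter (fun p : G × G => p.1 * p.2⁻¹ = g)).card * (n - 1) = n ^ (m - 2) - 1

/-- `n ≥ 2` is such that, for some odd `m ≥ 3` whose least prime factor is at most `K`, some finite
group contains a difference set with the Singer parameters of `(n, m)`. -/
def IsOrder (K n : ℕ) : Prop :=
  2 ≤ n ∧ ∃ m : ℕ, Odd m ∧ 3 ≤ m ∧ m.minFac ≤ K ∧ HasSingerDifferenceSet n m

/-- Orders which are values of a polynomial. Let `f` be a nonconstant polynomial with integer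
coefficients which is not the square of a polynomial with rational coefficients, and let `K` be given.

(1) The integers `t ≥ 0` such that `f(t)` is, for some odd `m ≥ 3` with a prime factor at most `K`,
the order `n` of a difference set with the Singer parameters of `(n, m)` in some finite group, have
density zero.

(2) If `f` is not a power `X ^ k`, then the primes `p` such that `f(p)` is such an order have relative
density zero among the primes. (If `f = X ^ k`, then `f(p)` is such an order for all primes `p`, by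
Singer's theorem.) -/
theorem result (f : ℤ[X]) (hf : 0 < f.natDegree)
    (hsq : ¬ ∃ g : ℚ[X], f.map (Int.castRingHom ℚ) = g ^ 2) (K : ℕ) :
    Tendsto (fun N : ℕ =>
      ({t : ℕ | t < N ∧ ∃ n : ℕ, f.eval (t : ℤ) = n ∧ IsOrder K n}.ncard : ℝ) / N) atTop (𝓝 0) ∧
    ((∀ k : ℕ, f ≠ X ^ k) →
      Tendsto (fun N : ℕ =>
        ({p : ℕ | p ≤ N ∧ p.Prime ∧ ∃ n : ℕ, f.eval (p : ℤ) = n ∧ IsOrder K n}.ncard : ℝ) /
          ({p : ℕ | p ≤ N ∧ p.Prime}.ncard : ℝ)) atTop (𝓝 0)) := by
  classical
  have hS : ∀ t : ℕ, (∃ n : ℕ, f.eval (t : ℤ) = n ∧ IsOrder K n) → ∃ n : ℕ, 2 ≤ n ∧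
      f.eval (t : ℤ) = n ∧ ∃ m : ℕ, Odd m ∧ 3 ≤ m ∧ m.minFac ≤ K ∧
        Pool.Agent.H771R2.SingerDS.HasSinger n m := by
    rintro t ⟨n, h1, h2, m, h3, h4, h5, h6⟩
    exact ⟨n, h2, h1, m, h3, h4, h5, h6⟩
  obtain ⟨h1, h2⟩ := Pool.Agent.T2H18.PO.singer_main hf hsq K _ hS
  constructor
  · refine h1.congr fun N => ?_
    have h3 : {t : ℕ | t < N ∧ ∃ n : ℕ, f.eval (t : ℤ) = n ∧ IsOrder K n} =
        ((Finset.range N).filter (fun t : ℕ => ∃ n : ℕ, f.eval (t : ℤ) = n ∧ IsOrder K n) :
          Finset ℕ) := by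
      ext t
      simp only [Finset.coe_filter, Finset.mem_range, Set.mem_ofPred_eq]
    rw [h3, Set.ncard_coe_finset]
    unfold Pool.Agent.H771R2.Dens.cnt
    congr
  · intro hk
    refine (Pool.Agent.T2H18.PO.PZ.tendsto (h2 hk)).congr fun N => ?_
    have h3 : {p : ℕ | p ≤ N ∧ p.Prime}.ncard = Nat.primeCounting N := by
      have h4 : {p : ℕ | p ≤ N ∧ p.Prime} =
          ((Finset.range (N + 1)).filter (fun p => p.Prime) : Finset ℕ) := by
        ext p
        simp only [Finset.coe_filter, Finset.mem_range, Set.mem_ofPred_eq, Nat.lt_succ_iff]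
      rw [h4, Set.ncard_coe_finset, Nat.primeCounting, Nat.primeCounting', Nat.count_eq_card_filter_range]
    rw [h3]

end Pool.Agent.Results.MP_79499b_co.PolynomialOrders
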