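import Mathlib
import Pool.Agent.T2H07.IP.OCQ
import Pool.Agent.T2H58.DQ.Eq

set_option autoImplicit false

/-!
# Orders of difference sets with Singer parameters in equidistributed sequences

For every sequence of integers `a(1), …, a(X)` with a level of distribution `X ^ θ` the number of the
`t ≤ X` for which `a(t)` is the order of a difference set with Singer parameters in some finite group,
for some odd `m ≥ 3` with a prime factor at most `K`, is `O(X (log X) ^ (ε - 1))`, with a constant which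
depends on `K`, `ε`, `θ` and the constant in the error term only. This applies to the integer parts
`⌊f(t)⌋` of smooth functions such as `α t^c + P(t)`, `c > 0` not an integer.

Method. A prime `p` dividing `n` exactly must not have a power `≡ -1` modulo a prime `q` dividing
`(n^m - 1) / (n - 1)` (Mann). The `k` smallest exact prime divisors of `a(t)` are fixed; Brun's sieve
along the sequence removes the classes modulo `q ^ 2` for the primes `q` modulo which one of them is a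
quadratic nonresidue.
-/

namespace Pool.Agent.Results.MP_79499b_co.SequenceOrders

open Polynomial

/-- Some finite group `G` (not assumed abelian) of order `(n ^ m - 1) / (n - 1)` contains a
difference set `D` with the Singer parameters:
`k = (n ^ (m - 1) - 1) / (n - 1)`, `lambda = (n ^ (m - 2) - 1) / (n - 1)`. -/
def HasSingerDifferenceSet (n m : ℕ) : Prop :=
  ∃ (G : Type) (_ : Group G) (_ : Fintype G) (_ : DecidableEq G) (D : Finset G),
    Fintype.card G * (n - 1) = n ^ m - 1 ∧ D.card * (n - 1) = n ^ (m - 1) - 1 ∧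
    ∀ g : G, g ≠ 1 →
      ((D ×ˢ D).filter (fun p : G × G => p.1 * p.2⁻¹ = g)).card * (n - 1) = n ^ (m - 2) - 1

/-- `n ≥ 2` is such that, for some odd `m ≥ 3` whose least prime factor is at most `K`, some finite
group contains a difference set with the Singer parameters of `(n, m)`. -/
def IsOrder (K n : ℕ) : Prop :=
  2 ≤ n ∧ ∃ m : ℕ, Odd m ∧ 3 ≤ m ∧ m.minFac ≤ K ∧ HasSingerDifferenceSet n m

/-- The number of the `1 ≤ t ≤ X` for which `a t` is the order `n` of a difference set as in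
`IsOrder K n`. -/
noncomputable def orders (K : ℕ) (a : ℕ → ℤ) (X : ℕ) : ℕ :=
  {t : ℕ | 1 ≤ t ∧ t ≤ X ∧ ∃ n : ℕ, a t = n ∧ IsOrder K n}.ncard

/-- `a(1), …, a(X)` are equidistributed modulo every `q ≤ X ^ θ`, with an error of at most
`B X ^ (1 - θ)` in each residue class. -/
def Level (θ B : ℝ) (X : ℕ) (a : ℕ → ℤ) : Prop :=
  ∀ q : ℕ, 1 ≤ q → (q : ℝ) ≤ (X : ℝ) ^ θ → ∀ v : ℤ, 0 ≤ v → v < q →
    |({t : ℕ | 1 ≤ t ∧ t ≤ X ∧ a t % (q : ℤ) = v}.ncard : ℝ) - (X : ℝ) / q| ≤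
      B * (X : ℝ) ^ (1 - θ)

/-- `f` is `k` times differentiable at all `x ≥ x₀` (with derivatives `F 0 = f`, `F 1`, ..., `F k`), and
`f^(k)` or `-f^(k)` is nonincreasing on `[x₀, ∞)`, between `x ^ (-2 + η)` and `x ^ (-η)`, and at most `A`
times its value at `2 x`. -/
def Regular (k : ℕ) (x₀ η A : ℝ) (f : ℝ → ℝ) : Prop :=
  ∃ F : ℕ → ℝ → ℝ, F 0 = f ∧ (∀ j < k, ∀ x, x₀ ≤ x → HasDerivAt (F j) (F (j + 1) x) x) ∧
    ∃ s : ℝ, (s = 1 ∨ s = -1) ∧ (∀ x, x₀ ≤ x → x ^ (-2 + η) ≤ s * F k x ∧ s * F k x ≤ x ^ (-η) ∧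
      s * F k x ≤ A * (s * F k (2 * x))) ∧ ∀ x y, x₀ ≤ x → x ≤ y → s * F k y ≤ s * F k x

/-- **Main theorem.** (1) For all `K`, `ε > 0`, `θ > 0` and `B ≥ 1` there is `C` such that for all `X ≥ 3`
and all sequences of integers `a(1), …, a(X)` with `Level θ B X a`, at most `C X (log X) ^ (ε - 1)` of the
`a(t)`, `t ≤ X`, are orders.
(2) For all `K`, `ε > 0`, `k ≥ 2`, `x₀`, `0 < η < 1`, `A ≥ 1` there is `C` such that for all functions
`f` with `Regular k x₀ η A f` and all `X ≥ 3`, at most `C X (log X) ^ (ε - 1)` of the integers `⌊f(t)⌋`,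
`t ≤ X`, are orders.
(3) If `α ≠ 0` and `c > 0` are real and `c` is not an integer then there are `x₀` and `0 < η < 1` such that
for all polynomials `P` with real coefficients of degree at most `⌊c⌋ + 1` the function `α x^c + P(x)` is
`Regular (⌊c⌋ + 2) x₀ η 4`; if `α ≠ 0` is real then there is `x₀` such that all functions
`α x log x + β x + γ` are `Regular 2 x₀ (1/2) 4`. -/
theorem result :
    (∀ (K : ℕ) (ε θ B : ℝ), 0 < ε → 0 < θ → 1 ≤ B → ∃ C : ℝ, ∀ X : ℕ, 3 ≤ X →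
      ∀ a : ℕ → ℤ, Level θ B X a → (orders K a X : ℝ) ≤ C * X * (Real.log X) ^ (ε - 1)) ∧
    (∀ (K : ℕ) (ε : ℝ), 0 < ε → ∀ k : ℕ, 2 ≤ k → ∀ x₀ η A : ℝ, 0 < η → η < 1 → 1 ≤ A →
      ∃ C : ℝ, ∀ f : ℝ → ℝ, Regular k x₀ η A f → ∀ X : ℕ, 3 ≤ X →
        (orders K (fun t => ⌊f t⌋) X : ℝ) ≤ C * X * (Real.log X) ^ (ε - 1)) ∧
    (∀ α c : ℝ, α ≠ 0 → 0 < c → (∀ n : ℕ, c ≠ n) → ∃ x₀ η : ℝ, 0 < η ∧ η < 1 ∧ ∀ P : ℝ[X],
      P.natDegree ≤ ⌊c⌋₊ + 1 → Regular (⌊c⌋₊ + 2) x₀ η 4 (fun x => α * x ^ c + P.eval x)) ∧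
    (∀ α : ℝ, α ≠ 0 → ∃ x₀ : ℝ, ∀ β γ : ℝ,
      Regular 2 x₀ (1 / 2) 4 (fun x => α * (x * Real.log x) + β * x + γ)) := by
  classical
  have hcard : ∀ (X : ℕ) (P : ℕ → Prop),
      {t : ℕ | 1 ≤ t ∧ t ≤ X ∧ P t}.ncard = ((Finset.Ioc 0 X).filter P).card := by
    intro X P
    have h1 : {t : ℕ | 1 ≤ t ∧ t ≤ X ∧ P t} = ((Finset.Ioc 0 X).filter P : Finset ℕ) := by
      ext t
      simp only [Set.mem_ofPred_eq, Finset.coe_filter, Finset.mem_Ioc]
      constructor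
      · rintro ⟨h1, h2, h3⟩
        exact ⟨⟨by omega, h2⟩, h3⟩
      · rintro ⟨⟨h1, h2⟩, h3⟩
        exact ⟨by omega, h2, h3⟩
    rw [h1, Set.ncard_coe_finset]
  have main : ∀ (K : ℕ) (ε θ B : ℝ), 0 < ε → 0 < θ → 1 ≤ B → ∃ C : ℝ, ∀ X : ℕ, 3 ≤ X →
      ∀ a : ℕ → ℤ, Pool.Agent.T2H58.DQ.Equi a X ((X : ℝ) ^ θ) (B * (X : ℝ) ^ (1 - θ)) →
        (orders K a X : ℝ) ≤ C * X * (Real.log X) ^ (ε - 1) := by
    intro K ε θ B hε hθ hB
    obtain ⟨C, hC, H⟩ := Pool.Agent.T2H07.IP.singerQ_le θ hθ B hB K ε hε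
    refine ⟨C, fun X hX a ha => ?_⟩
    refine le_trans ?_ (H X hX a ha)
    have h1 : orders K a X = ((Finset.Ioc 0 X).filter (fun t => ∃ n : ℕ, a t = n ∧ IsOrder K n)).card :=
      hcard X _
    have h2 : ((Finset.Ioc 0 X).filter (fun t => ∃ n : ℕ, a t = n ∧ IsOrder K n)) ⊆
        (Finset.Ioc 0 X).filter (fun t => ∃ n : ℕ, a t = n ∧ 2 ≤ n ∧
          ∃ m : ℕ, Odd m ∧ 3 ≤ m ∧ m.minFac ≤ K ∧ Pool.Agent.H771R2.SingerDS.HasSinger n m) := by
      intro t ht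
      rw [Finset.mem_filter] at ht ⊢
      obtain ⟨h1, n, h2, h3, m, h4, h5, h6, h7⟩ := ht
      exact ⟨h1, n, h2, h3, m, h4, h5, h6, h7⟩
    rw [h1]
    have h3 := Finset.card_le_card h2
    have h4 : (((Finset.Ioc 0 X).filter (fun t => ∃ n : ℕ, a t = n ∧ IsOrder K n)).card : ℝ) ≤
        (((Finset.Ioc 0 X).filter (fun t => ∃ n : ℕ, a t = n ∧ 2 ≤ n ∧
          ∃ m : ℕ, Odd m ∧ 3 ≤ m ∧ m.minFac ≤ K ∧
            Pool.Agent.H771R2.SingerDS.HasSinger n m)).card : ℝ) := by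
      exact_mod_cast h3
    convert h4 using 3
  refine ⟨?_, ?_, fun α c hα hc hcn => Pool.Agent.T2H58.LU.regular_rpow α hα c hc hcn,
    fun α hα => Pool.Agent.T2H58.LU.regular_log α hα⟩
  · intro K ε θ B hε hθ hB
    obtain ⟨C, H⟩ := main K ε θ B hε hθ hB
    refine ⟨C, fun X hX a ha => H X hX a ?_⟩
    intro q hq hqX v hv hvq
    have := ha q hq hqX v hv hvq
    rw [hcard X (fun t => a t % (q : ℤ) = v)] at this
    convert this using 6
  · intro K ε hε k hk x₀ η A hη hη1 hA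
    obtain ⟨θ, hθ, hθ1, B, hB, heq⟩ := Pool.Agent.T2H58.DQ.eq_reg k hk x₀ η hη hη1 A hA
    obtain ⟨C, H⟩ := main K ε θ B hε hθ hB
    refine ⟨C, fun f hf X hX => H X hX _ ?_⟩
    intro q hq hqX v hv hvq
    exact heq f hf X q (by omega) hq hqX v hv hvq

end Pool.Agent.Results.MP_79499b_co.SequenceOrders
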