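import Mathlib
import Pool.Agent.T2H18.TW.Main

set_option autoImplicit false

namespace Pool.Agent.Results.MP_79499b_co.TowerOrders

/-- Some finite group `G` of order `(n ^ m - 1) / (n - 1)`, which is nilpotent (for instance
abelian) if the condition `nil` holds, contains a difference set `D` with the Singer parameters
`k = (n ^ (m - 1) - 1) / (n - 1)` and `lambda = (n ^ (m - 2) - 1) / (n - 1)`. (If `nil` is false, `G`
is an arbitrary finite group.) -/
def HasSingerDifferenceSet (nil : Prop) (n m : ℕ) : Prop :=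
  ∃ (G : Type) (_ : Group G) (_ : Fintype G) (_ : DecidableEq G) (D : Finset G),
    (nil → Group.IsNilpotent G) ∧
    Fintype.card G * (n - 1) = n ^ m - 1 ∧ D.card * (n - 1) = n ^ (m - 1) - 1 ∧
    ∀ g : G, g ≠ 1 →
      ((D ×ˢ D).filter (fun p : G × G => p.1 * p.2⁻¹ = g)).card * (n - 1) = n ^ (m - 2) - 1

/-- Powers of a fixed order in a fixed dimension. Let `n ≥ 2` be not a prime power and let `m ≥ 3`.
For every `B` there is an odd `i > B` such that, for all `t` coprime to `2 * m` and all odd `r`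
(`r = 1` included), no finite nilpotent group contains a difference set with the Singer parameters of
`(n ^ (i * t), m * r)`; if `m` is odd and `n` is not a perfect square, then no finite group at all
does. -/
theorem result (n : ℕ) (hn : 2 ≤ n) (hpp : ¬ IsPrimePow n) (m : ℕ) (hm : 3 ≤ m) (B : ℕ) :
    ∃ i : ℕ, B < i ∧ Odd i ∧ ∀ t r : ℕ, t.Coprime (2 * m) → Odd r →
      ¬ HasSingerDifferenceSet (Even m ∨ IsSquare n) (n ^ (i * t)) (m * r) := by
  by_cases h : Even m ∨ IsSquare n
  · obtain ⟨i, hi, hio, H⟩ := Pool.Agent.T2H18.TW.nil hn hpp hm h B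
    refine ⟨i, hi, hio, fun t r ht hr hS => H t r ht hr ?_⟩
    obtain ⟨G, i1, i2, i3, D, h1, h2, h3, h4⟩ := hS
    exact ⟨G, i1, i2, i3, D, h1 h, h2, h3, h4⟩
  · push Not at h
    obtain ⟨i, hi, hio, H⟩ := Pool.Agent.T2H18.TW.fin hn hpp hm (Nat.not_even_iff_odd.1 h.1) h.2 B
    refine ⟨i, hi, hio, fun t r ht hr hS => H t r ht hr ?_⟩
    obtain ⟨G, i1, i2, i3, D, h1, h2, h3, h4⟩ := hS
    exact ⟨G, i1, i2, i3, D, h2, h3, h4⟩

end Pool.Agent.Results.MP_79499b_co.TowerOrders
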